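import Mathlib

set_option autoImplicit false

namespace Pool.Agent.V11113.HG

open Filter Topology Polynomial MeasureTheory

/-- tolerance -/
noncomputable def tau (K : ℕ) : ℝ := (1 / 2) ^ (2 * K + 6)

/-- radii -/
noncomputable def RR (K : ℕ) : ℝ := 2 ^ (4 * (K + 2) ^ 2)

/-- weights -/
noncomputable def WW (l : ℕ) : ℝ := (1 / 2) ^ (l + 4 * (l + 1) ^ 3)

lemma tau_pos (K : ℕ) : 0 < tau K := by unfold tau; positivity
lemma WW_pos (l : ℕ) : 0 < WW l := by unfold WW; positivity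

lemma WW_anti : Antitone WW := antitone_nat_of_succ_le fun n => by
  unfold WW
  apply pow_le_pow_of_le_one (by norm_num) (by norm_num)
  have : (n + 1) ^ 3 ≤ (n + 1 + 1) ^ 3 := Nat.pow_le_pow_left (by omega) 3
  omega

lemma tau_le (K : ℕ) : tau K ≤ 1 / 4 := by
  unfold tau
  calc ((1 : ℝ) / 2) ^ (2 * K + 6) ≤ (1 / 2) ^ 2 :=
        pow_le_pow_of_le_one (by norm_num) (by norm_num) (by omega)
    _ = 1 / 4 := by norm_num

lemma RR_mono : Monotone RR := monotone_nat_of_le_succ fun n => by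
  unfold RR
  apply pow_le_pow_right₀ (by norm_num)
  have : (n + 2) ^ 2 ≤ (n + 1 + 2) ^ 2 := Nat.pow_le_pow_left (by omega) 2
  omega

lemma one_le_RR (K : ℕ) : 1 ≤ RR K := one_le_pow₀ (by norm_num)

lemma RR_tendsto : Tendsto RR atTop atTop := by
  apply tendsto_atTop_mono (f := fun n : ℕ => (2 : ℝ) ^ n)
  · intro n
    unfold RR
    apply pow_le_pow_right₀ (by norm_num)
    nlinarith
  · exact tendsto_pow_atTop_atTop_of_one_lt (by norm_num)

lemma tailW (K l : ℕ) (hl : K + 1 ≤ l) (r : ℝ) (hr0 : 0 ≤ r) (hr : r ≤ RR K) :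
    r ^ (l + 1) * WW l ≤ (1 / 2) ^ l := by
  obtain ⟨m, rfl⟩ : ∃ m, l = m + 1 := ⟨l - 1, by omega⟩
  have h1 : r ≤ RR m := hr.trans (RR_mono (by omega))
  have h2 : r ^ (m + 1 + 1) ≤ (2 : ℝ) ^ (4 * (m + 1 + 1) ^ 3) := by
    calc r ^ (m + 1 + 1) ≤ (RR m) ^ (m + 1 + 1) := pow_le_pow_left₀ hr0 h1 _
      _ = (2 : ℝ) ^ (4 * (m + 1 + 1) ^ 3) := by
        unfold RR
        rw [← pow_mul]
        congr 1
        ring
  unfold WW
  rw [pow_add ((1 : ℝ) / 2) (m + 1), ← mul_assoc]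
  have h3 : (2 : ℝ) ^ (4 * (m + 1 + 1) ^ 3) * (1 / 2) ^ (4 * (m + 1 + 1) ^ 3) = 1 := by
    rw [← mul_pow]; norm_num
  calc r ^ (m + 1 + 1) * (1 / 2) ^ (m + 1) * (1 / 2) ^ (4 * (m + 1 + 1) ^ 3)
      ≤ (2 : ℝ) ^ (4 * (m + 1 + 1) ^ 3) * (1 / 2) ^ (m + 1) * (1 / 2) ^ (4 * (m + 1 + 1) ^ 3) := by
        gcongr
    _ = ((2 : ℝ) ^ (4 * (m + 1 + 1) ^ 3) * (1 / 2) ^ (4 * (m + 1 + 1) ^ 3)) * (1 / 2) ^ (m + 1) := by
        ring
    _ = (1 / 2) ^ (m + 1) := by rw [h3, one_mul]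

lemma RR_tau (K : ℕ) : (2 : ℝ) ^ K ≤ RR K * (tau (K + 1) / 2) ^ (K + 1) := by
  unfold RR tau
  have h1 : ((1 : ℝ) / 2) ^ (2 * (K + 1) + 6) / 2 = (1 / 2) ^ (2 * (K + 1) + 7) := by
    rw [pow_succ _ (2 * (K + 1) + 6)]; ring
  rw [h1, ← pow_mul]
  have h2 : 4 * (K + 2) ^ 2 = K + (2 * (K + 1) + 7) * (K + 1) + (2 * K ^ 2 + 2 * K + 7 - 0) + 2 * K := by
    ring_nf
    omega
  rw [h2, pow_add, pow_add, pow_add]
  have h3 : (2 : ℝ) ^ ((2 * (K + 1) + 7) * (K + 1)) * (1 / 2) ^ ((2 * (K + 1) + 7) * (K + 1)) = 1 := by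
    rw [← mul_pow]; norm_num
  have h4 : (1 : ℝ) ≤ 2 ^ (2 * K ^ 2 + 2 * K + 7 - 0) := one_le_pow₀ (by norm_num)
  have h5 : (1 : ℝ) ≤ 2 ^ (2 * K) := one_le_pow₀ (by norm_num)
  calc (2 : ℝ) ^ K = 2 ^ K * 1 * 1 * 1 := by ring
    _ ≤ 2 ^ K * ((2 : ℝ) ^ ((2 * (K + 1) + 7) * (K + 1)) * (1 / 2) ^ ((2 * (K + 1) + 7) * (K + 1))) *
      2 ^ (2 * K ^ 2 + 2 * K + 7 - 0) * 2 ^ (2 * K) := by
        rw [h3]
        gcongr
    _ = _ := by ring

/-- A polynomial is large away from its roots. -/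
lemma root_low (Q : ℂ[X]) (z : ℂ) (t : ℝ) (ht0 : 0 < t) (ht1 : t ≤ 1) (K : ℕ)
    (hK : Q.natDegree ≤ K) (h : ∀ ζ ∈ Q.roots, t * ‖z‖ ≤ ‖z - ζ‖) :
    ‖Q.eval 0‖ * (t / 2) ^ K ≤ ‖Q.eval z‖ := by
  have hs := IsAlgClosed.splits Q
  have hz := hs.eval_eq_prod_roots z
  have h0 := hs.eval_eq_prod_roots 0
  rw [hz, h0]
  have hmap : ∀ (w : ℂ), ‖(Multiset.map (fun a => w - a) Q.roots).prod‖ =
      (Multiset.map (fun a => ‖w - a‖) Q.roots).prod := by
    intro w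
    have := map_multiset_prod (normHom (α := ℂ)) (Multiset.map (fun a => w - a) Q.roots)
    rw [Multiset.map_map] at this
    exact this
  rw [norm_mul, norm_mul, hmap, hmap, mul_assoc]
  apply mul_le_mul_of_nonneg_left _ (norm_nonneg _)
  have hcard : Multiset.card Q.roots ≤ K := (Polynomial.card_roots' Q).trans hK
  have hpos : 0 ≤ (Multiset.map (fun a => ‖(0 : ℂ) - a‖) Q.roots).prod :=
    Multiset.prod_nonneg (by
      intro a ha
      obtain ⟨b, _, rfl⟩ := Multiset.mem_map.1 ha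
      exact norm_nonneg _)
  calc (Multiset.map (fun a => ‖(0 : ℂ) - a‖) Q.roots).prod * (t / 2) ^ K
      ≤ (Multiset.map (fun a => ‖(0 : ℂ) - a‖) Q.roots).prod * (t / 2) ^ (Multiset.card Q.roots) := by
        apply mul_le_mul_of_nonneg_left _ hpos
        apply pow_le_pow_of_le_one (by positivity) (by linarith) hcard
    _ = (Multiset.map (fun a => ‖(0 : ℂ) - a‖ * (t / 2)) Q.roots).prod := by
        rw [Multiset.prod_map_mul, Multiset.map_const', Multiset.prod_replicate]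
    _ ≤ (Multiset.map (fun a => ‖z - a‖) Q.roots).prod := by
        apply Multiset.prod_map_le_prod_map₀
        · intro a _; positivity
        · intro a ha
          have h1 := h a ha
          have h2 : ‖a‖ ≤ ‖z‖ + ‖z - a‖ := by
            have : a = z - (z - a) := by ring
            calc ‖a‖ = ‖z - (z - a)‖ := by rw [← this]
              _ ≤ _ := norm_sub_le _ _
          rw [zero_sub, norm_neg]
          nlinarith [norm_nonneg (z - a), norm_nonneg z]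

/-- There is a good direction. -/
lemma exists_dir (Q : ℕ → ℂ[X]) (hQ : ∀ K, (Q K).natDegree ≤ K) :
    ∃ s ∈ Set.Icc (0 : ℝ) 1, ∀ K, ∀ ζ ∈ (Q K).roots, 8 * tau K < |s - ζ.im / ζ.re| := by
  by_contra hcon
  push Not at hcon
  let S : ℕ → Set ℝ := fun K => ⋃ ζ ∈ (Q K).roots.toFinset,
    Set.Icc (ζ.im / ζ.re - 8 * tau K) (ζ.im / ζ.re + 8 * tau K)
  have hsub : Set.Icc (0 : ℝ) 1 ⊆ ⋃ K, S K := by
    intro s hs
    obtain ⟨K, ζ, hζ, h⟩ := hcon s hs
    refine Set.mem_iUnion.2 ⟨K, Set.mem_iUnion₂.2 ⟨ζ, by simpa using hζ, ?_⟩⟩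
    rw [abs_le] at h
    constructor <;> linarith
  have hS : ∀ K, volume (S K) ≤ ENNReal.ofReal ((1 / 2) * (1 / 2) ^ (K + 1)) := by
    intro K
    calc volume (S K) ≤ ∑ ζ ∈ (Q K).roots.toFinset,
          volume (Set.Icc (ζ.im / ζ.re - 8 * tau K) (ζ.im / ζ.re + 8 * tau K)) :=
        measure_biUnion_finset_le _ _
      _ = ∑ ζ ∈ (Q K).roots.toFinset, ENNReal.ofReal (16 * tau K) := by
        refine Finset.sum_congr rfl fun ζ _ => ?_
        rw [Real.volume_Icc]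
        congr 1
        ring
      _ = ENNReal.ofReal (((Q K).roots.toFinset.card : ℝ) * (16 * tau K)) := by
        rw [Finset.sum_const, nsmul_eq_mul, ENNReal.ofReal_mul (by positivity)]
        simp
      _ ≤ ENNReal.ofReal ((1 / 2) * (1 / 2) ^ (K + 1)) := by
        apply ENNReal.ofReal_le_ofReal
        have h1 : ((Q K).roots.toFinset.card : ℝ) ≤ K := by
          exact_mod_cast (Multiset.toFinset_card_le _).trans ((Polynomial.card_roots' _).trans (hQ K))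
        have h2 : (K : ℝ) ≤ 2 ^ K := by exact_mod_cast Nat.lt_two_pow_self.le
        have h3 : 16 * tau K = (1 / 2) ^ K * ((1 / 2) * (1 / 2) ^ (K + 1)) := by
          unfold tau
          rw [show 2 * K + 6 = K + (K + 1) + 5 by ring, pow_add, pow_add]
          ring
        have h4 : (2 : ℝ) ^ K * (1 / 2) ^ K = 1 := by rw [← mul_pow]; norm_num
        calc ((Q K).roots.toFinset.card : ℝ) * (16 * tau K) ≤ 2 ^ K * (16 * tau K) := by
              apply mul_le_mul_of_nonneg_right (h1.trans h2)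
              have := tau_pos K
              positivity
          _ = (2 ^ K * (1 / 2) ^ K) * ((1 / 2) * (1 / 2) ^ (K + 1)) := by rw [h3]; ring
          _ = (1 / 2) * (1 / 2) ^ (K + 1) := by rw [h4, one_mul]
  have hsum : HasSum (fun K : ℕ => (1 / 2 : ℝ) * (1 / 2) ^ (K + 1)) (1 / 2) := by
    have h1 := hasSum_geometric_two
    have h2 := h1.mul_left (1 / 4 : ℝ)
    convert! h2 using 1
    · funext K; rw [pow_succ]; ring
    · norm_num
  have h1 : volume (Set.Icc (0 : ℝ) 1) ≤ ENNReal.ofReal (1 / 2) := by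
    calc volume (Set.Icc (0 : ℝ) 1) ≤ volume (⋃ K, S K) := measure_mono hsub
      _ ≤ ∑' K, volume (S K) := measure_iUnion_le _
      _ ≤ ∑' K, ENNReal.ofReal ((1 / 2) * (1 / 2) ^ (K + 1)) := ENNReal.tsum_le_tsum hS
      _ = ENNReal.ofReal (1 / 2) := by
        rw [← ENNReal.ofReal_tsum_of_nonneg (fun K => by positivity) hsum.summable, hsum.tsum_eq]
  rw [Real.volume_Icc] at h1
  have h2 := (ENNReal.ofReal_le_ofReal_iff (by norm_num)).1 h1
  norm_num at h2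

/-- geometry of directions -/
lemma dir_geom (s : ℝ) (hs : s ∈ Set.Icc (0 : ℝ) 1) (n : ℕ) (hn : 0 < n) (t : ℝ) (ht0 : 0 < t)
    (ht : t ≤ 1 / 4) (ζ : ℂ) (h : ‖(n : ℂ) * (1 + s * Complex.I) - ζ‖ <
      t * ‖(n : ℂ) * (1 + s * Complex.I)‖) :
    |s - ζ.im / ζ.re| ≤ 8 * t := by
  have hn' : (0 : ℝ) < n := by exact_mod_cast hn
  have h1 : ‖(n : ℂ) * (1 + s * Complex.I)‖ ≤ 2 * n := by
    rw [norm_mul, Complex.norm_natCast]
    have : ‖(1 : ℂ) + s * Complex.I‖ ≤ 2 := by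
      calc ‖(1 : ℂ) + s * Complex.I‖ ≤ ‖(1 : ℂ)‖ + ‖(s : ℂ) * Complex.I‖ := norm_add_le _ _
        _ = 1 + |s| := by simp
        _ ≤ 2 := by rw [abs_of_nonneg hs.1]; linarith [hs.2]
    nlinarith
  have h2 : ‖(n : ℂ) * (1 + s * Complex.I) - ζ‖ < 2 * t * n := by nlinarith
  have h3 := (Complex.abs_re_le_norm ((n : ℂ) * (1 + s * Complex.I) - ζ)).trans_lt h2
  have h4 := (Complex.abs_im_le_norm ((n : ℂ) * (1 + s * Complex.I) - ζ)).trans_lt h2
  simp only [Complex.sub_re, Complex.mul_re, Complex.natCast_re, Complex.add_re, Complex.one_re,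
    Complex.ofReal_re, Complex.I_re, mul_zero, Complex.ofReal_im, Complex.I_im, mul_one, sub_self,
    add_zero, Complex.natCast_im, Complex.add_im, Complex.one_im, Complex.mul_im, zero_add,
    zero_mul, sub_zero, Complex.sub_im] at h3 h4
  rw [abs_lt] at h3 h4
  have h5 : (n : ℝ) / 2 < ζ.re := by nlinarith [h3.2]
  have h6 : 0 < ζ.re := by linarith
  have h7 : s - ζ.im / ζ.re = (s * ζ.re - ζ.im) / ζ.re := by field_simp
  rw [h7, abs_div, abs_of_pos h6, div_le_iff₀ h6, abs_le]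
  have h8 : |s * (ζ.re - n)| ≤ 2 * t * n := by
    rw [abs_mul, abs_of_nonneg hs.1]
    have : |ζ.re - n| ≤ 2 * t * n := by rw [abs_le]; constructor <;> linarith [h3.1, h3.2]
    nlinarith [hs.1, hs.2, abs_nonneg (ζ.re - n)]
  rw [abs_le] at h8
  constructor <;> nlinarith [h8.1, h8.2, h4.1, h4.2]

end Pool.Agent.V11113.HG
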