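import Pool.Agent.V11113.HG.Space

set_option autoImplicit false

namespace Pool.Agent.V11113.HG

open Filter Topology Polynomial

section

variable {E : Type} [NormedAddCommGroup E] [NormedSpace ℂ E] [CompleteSpace E]
  (V : SeqSpace ℂ E) (W : ℕ → ℝ) (G : E →L[ℂ] E)

/-- the group -/
noncomputable def Tz (z : ℂ) : E →L[ℂ] E := NormedSpace.exp (z • G)

lemma Tz_zero : Tz G 0 = ContinuousLinearMap.id ℂ E := by
  unfold Tz
  rw [zero_smul, NormedSpace.exp_zero]
  rfl

lemma Tz_add (z w : ℂ) : Tz G (z + w) = (Tz G z).comp (Tz G w) := by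
  unfold Tz
  let _ : NormedAlgebra ℚ (E →L[ℂ] E) := NormedAlgebra.restrictScalars ℚ ℂ _
  rw [add_smul, NormedSpace.exp_add_of_commute]
  · rfl
  · exact ((Commute.refl G).smul_left z).smul_right w

lemma Tz_deriv (z : ℂ) (x : E) : HasDerivAt (fun z => Tz G z x) ((Tz G z * G) x) z := by
  have h := hasDerivAt_exp_smul_const (𝕂 := ℂ) G z
  have h2 := (ContinuousLinearMap.apply ℂ E x).hasFDerivAt.comp_hasDerivAt z h
  exact h2

lemma Tz_iter (z : ℂ) (n : ℕ) (x : E) : (⇑(Tz G z))^[n] x = Tz G (n * z) x := by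
  induction n with
  | zero => simp [Tz_zero]
  | succ n ih =>
    rw [Function.iterate_succ_apply', ih]
    have : ((n + 1 : ℕ) : ℂ) * z = z + n * z := by push_cast; ring
    rw [this, Tz_add]
    rfl

variable (hW : ∀ n, 0 < W n)
  (hG : ∀ x n, V.co (G x) n = ((W (n + 1) / W n : ℝ) : ℂ) * V.co x (n + 1))

include hW hG

lemma G_pow (k : ℕ) (x : E) (n : ℕ) :
    V.co ((G ^ k) x) n = ((W (n + k) / W n : ℝ) : ℂ) * V.co x (n + k) := by
  have hWc : ∀ n, (W n : ℂ) ≠ 0 := fun n => by exact_mod_cast (hW n).ne'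
  induction k generalizing x with
  | zero =>
    simp only [pow_zero, one_apply_eq_self, add_zero]
    rw [div_self (hW n).ne']; simp
  | succ k ih =>
    rw [pow_succ, mul_apply_eq_comp, ih, hG, ← add_assoc]
    push_cast
    have h1 := hWc (n + k)
    have h2 := hWc n
    field_simp

lemma co_T (z : ℂ) (x : E) (n : ℕ) :
    HasSum (fun k : ℕ => (k.factorial : ℂ)⁻¹ * z ^ k * (((W (n + k) / W n : ℝ) : ℂ) *
      V.co x (n + k))) (V.co (Tz G z x) n) := by
  have h := NormedSpace.exp_series_hasSum_exp' (𝕂 := ℂ) (z • G)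
  have h2 := (ContinuousLinearMap.apply ℂ E x).hasSum h
  have h3 := (coL V n).hasSum h2
  convert! h3 using 1
  funext k
  show _ = coL V n (((k.factorial : ℂ)⁻¹ • (z • G) ^ k) x)
  rw [_root_.smul_pow, ContinuousLinearMap.smul_apply, ContinuousLinearMap.smul_apply, map_smul, map_smul,
    coL_apply, G_pow V W G hW hG, smul_eq_mul, smul_eq_mul]
  ring

omit hW hG in
/-- polynomials as vectors -/
noncomputable def Phi : ℂ[X] →ₗ[ℂ] E :=
  (Polynomial.basisMonomials ℂ).constr ℂ (fun n => ((n.factorial : ℂ) / W n) • V.e n)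

omit hW hG [CompleteSpace E] in
lemma Phi_monomial (n : ℕ) (c : ℂ) :
    Phi V W (monomial n c) = (c * ((n.factorial : ℂ) / W n)) • V.e n := by
  have h1 : (monomial n c : ℂ[X]) = c • (Polynomial.basisMonomials ℂ n) := by
    rw [Polynomial.coe_basisMonomials, Polynomial.smul_monomial, smul_eq_mul, mul_one]
  rw [h1, map_smul, Phi, Module.Basis.constr_basis, smul_smul]

omit hW hG [CompleteSpace E] in
lemma co_Phi (p : ℂ[X]) (n : ℕ) : V.co (Phi V W p) n = (n.factorial : ℂ) / W n * p.coeff n := by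
  induction p using Polynomial.induction_on' with
  | add p q hp hq => rw [map_add, map_add, Pi.add_apply, hp, hq, coeff_add]; ring
  | monomial m c =>
    rw [Phi_monomial, map_smul, V.co_e, Pi.smul_apply, coeff_monomial, smul_eq_mul]
    by_cases h : m = n
    · subst h; simp; ring
    · rw [Pi.single_eq_of_ne (Ne.symm h), if_neg h]; simp

lemma T_Phi (z : ℂ) (p : ℂ[X]) : Tz G z (Phi V W p) = Phi V W (Polynomial.taylor z p) := by
  have hWc : ∀ n, (W n : ℂ) ≠ 0 := fun n => by exact_mod_cast (hW n).ne'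
  apply V.inj
  funext n
  rw [← (co_T V W G hW hG z (Phi V W p) n).tsum_eq, co_Phi, Polynomial.taylor_coeff]
  have h1 : (Polynomial.hasseDeriv n p).eval z =
      ∑' k : ℕ, (Polynomial.hasseDeriv n p).coeff k * z ^ k := by
    rw [Polynomial.eval_eq_sum_range' (n := (Polynomial.hasseDeriv n p).natDegree + 1) (by omega)]
    rw [tsum_eq_sum]
    intro k hk
    rw [Polynomial.coeff_eq_zero_of_natDegree_lt, zero_mul]
    simp only [Finset.mem_range, not_lt] at hk
    omega
  rw [h1, ← tsum_mul_left]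
  congr 1
  funext k
  rw [co_Phi, Polynomial.hasseDeriv_coeff]
  have h2 : ((k + n).choose n : ℂ) = ((n + k).factorial : ℂ) / ((n.factorial : ℂ) * k.factorial) := by
    rw [eq_div_iff (by
      have := Nat.factorial_ne_zero n
      have := Nat.factorial_ne_zero k
      positivity)]
    have := Nat.choose_mul_factorial_mul_factorial (n := k + n) (k := n) (by omega)
    rw [Nat.add_sub_cancel] at this
    rw [add_comm n k, ← this]
    push_cast
    ring
  rw [h2, add_comm k n]
  have h3 := hWc (n + k)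
  have h4 := hWc n
  have h5 : (n.factorial : ℂ) ≠ 0 := by exact_mod_cast Nat.factorial_ne_zero n
  have h6 : (k.factorial : ℂ) ≠ 0 := by exact_mod_cast Nat.factorial_ne_zero k
  push_cast
  field_simp

omit hG [CompleteSpace E] in
lemma Phi_dense : Dense (Set.range (Phi V W)) := by
  have hWc : ∀ n, (W n : ℂ) ≠ 0 := fun n => by exact_mod_cast (hW n).ne'
  intro x
  have h1 : Submodule.span ℂ (Set.range V.e) ≤ LinearMap.range (Phi V W) := by
    rw [Submodule.span_le]
    rintro _ ⟨n, rfl⟩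
    refine ⟨monomial n (W n / n.factorial), ?_⟩
    rw [Phi_monomial]
    have h5 : (n.factorial : ℂ) ≠ 0 := by exact_mod_cast Nat.factorial_ne_zero n
    have h4 := hWc n
    have : ((W n : ℂ) / (n.factorial : ℂ) * ((n.factorial : ℂ) / W n)) = 1 := by
      field_simp
    rw [this, one_smul]
  have h2 : (Submodule.span ℂ (Set.range V.e) : Set E) ⊆ Set.range (Phi V W) := by
    intro y hy
    exact h1 hy
  exact closure_mono h2 (V.tail x)

omit hW hG [CompleteSpace E] in
/-- continuity in the parameter -/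
lemma Phi_cont (q g : ℂ[X]) :
    Tendsto (fun ε : ℂ => Phi V W (q * g.comp (C ε * X))) (𝓝 0) (𝓝 (g.eval 0 • Phi V W q)) := by
  induction g using Polynomial.induction_on' with
  | add p r hp hr =>
    simp only [add_comp, mul_add, map_add, eval_add, add_smul]
    exact hp.add hr
  | monomial m c =>
    have h1 : ∀ ε : ℂ, Phi V W (q * (monomial m c).comp (C ε * X)) =
        (c * ε ^ m) • Phi V W (q * X ^ m) := by
      intro ε
      rw [monomial_comp, mul_pow, ← C_pow, ← map_smul]
      congr 1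
      rw [smul_eq_C_mul, C_mul]
      ring
    simp_rw [h1]
    have h2 : Tendsto (fun ε : ℂ => (c * ε ^ m) • Phi V W (q * X ^ m)) (𝓝 0)
        (𝓝 ((c * (0 : ℂ) ^ m) • Phi V W (q * X ^ m))) := by
      have : Continuous (fun ε : ℂ => (c * ε ^ m) • Phi V W (q * X ^ m)) := by fun_prop
      exact this.tendsto 0
    convert! h2 using 2
    rw [eval_monomial]
    rcases Nat.eq_zero_or_pos m with h | h
    · subst h; simp
    · rw [zero_pow h.ne']; simp

/-- reachable pairs -/
def Reach (x y : E) : Prop := ∃ F : ℂ → ℂ[X], Tendsto (fun ε => Phi V W (F ε)) (𝓝[≠] 0) (𝓝 x) ∧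
  Tendsto (fun ε : ℂ => Phi V W (Polynomial.taylor ε⁻¹ (F ε))) (𝓝[≠] 0) (𝓝 y)

omit hW hG [CompleteSpace E] in
lemma Reach.add {x y x' y' : E} (h : Reach V W x y) (h' : Reach V W x' y') :
    Reach V W (x + x') (y + y') := by
  obtain ⟨F, h1, h2⟩ := h
  obtain ⟨F', h1', h2'⟩ := h'
  refine ⟨fun ε => F ε + F' ε, ?_, ?_⟩
  · simp only [map_add]; exact h1.add h1'
  · simp only [map_add]; exact h2.add h2'

omit hW hG [CompleteSpace E] in
lemma Reach.smul {x y : E} (c : ℂ) (h : Reach V W x y) : Reach V W (c • x) (c • y) := by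
  obtain ⟨F, h1, h2⟩ := h
  refine ⟨fun ε => c • F ε, ?_, ?_⟩
  · simp only [map_smul]; exact h1.const_smul c
  · simp only [map_smul]; exact h2.const_smul c

omit hW hG [CompleteSpace E] in
lemma reach_left (j : ℕ) : Reach V W (Phi V W (X ^ j)) 0 := by
  obtain ⟨A, B, hAB⟩ : IsCoprime ((X : ℂ[X]) ^ (j + 1)) ((X - 1 : ℂ[X]) ^ (j + 1)) := by
    apply IsCoprime.pow
    exact ⟨1, -1, by ring⟩
  obtain ⟨a, ha⟩ : ∃ a : ℂ[X], a = B * (X - 1) ^ (j + 1) := ⟨_, rfl⟩
  refine ⟨fun ε => X ^ j * a.comp (C ε * X), ?_, ?_⟩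
  · have h := (Phi_cont V W (X ^ j) a).mono_left (nhdsWithin_le_nhds (s := {(0 : ℂ)}ᶜ))
    have h0 : a.eval 0 = 1 := by
      have := congrArg (Polynomial.eval 0) hAB
      simp only [eval_add, eval_mul, eval_pow, eval_X, eval_one] at this
      rw [ha, eval_mul, eval_pow]
      rw [zero_pow (by omega), mul_zero, zero_add] at this
      exact this
    rw [h0, one_smul] at h
    exact h
  · have h := (Phi_cont V W (X ^ (j + 1)) ((X + 1) ^ j * B.comp (X + 1))).mono_left
      (nhdsWithin_le_nhds (s := {(0 : ℂ)}ᶜ))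
    have h2 : Tendsto (fun ε : ℂ => ε) (𝓝[≠] 0) (𝓝 0) := nhdsWithin_le_nhds
    have h3 := h2.smul h
    rw [zero_smul] at h3
    refine h3.congr' ?_
    filter_upwards [self_mem_nhdsWithin] with ε hε
    have hε' : ε ≠ 0 := hε
    rw [← map_smul]
    congr 1
    rw [smul_eq_C_mul, Polynomial.taylor_apply, ha]
    simp only [mul_comp, pow_comp, sub_comp, X_comp, one_comp, C_comp, add_comp, comp_assoc]
    have e1 : (C ε : ℂ[X]) * (X + C ε⁻¹) = C ε * X + 1 := by
      rw [mul_add, ← C_mul, mul_inv_cancel₀ hε', C_1]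
    rw [e1]
    have e2 : (X + C ε⁻¹ : ℂ[X]) ^ j * (C ε * X) ^ (j + 1) =
        C ε * (X ^ (j + 1) * (C ε * X + 1) ^ j) := by
      rw [← e1, mul_pow (C ε) (X + C ε⁻¹)]
      ring
    rw [add_sub_cancel_right]
    calc C ε * (X ^ (j + 1) * ((C ε * X + 1) ^ j * B.comp (C ε * X + 1)))
        = (C ε * (X ^ (j + 1) * (C ε * X + 1) ^ j)) * B.comp (C ε * X + 1) := by ring
      _ = ((X + C ε⁻¹ : ℂ[X]) ^ j * (C ε * X) ^ (j + 1)) * B.comp (C ε * X + 1) := by rw [e2]
      _ = _ := by ring

omit hW hG [CompleteSpace E] in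
lemma reach_right (j : ℕ) : Reach V W 0 (Phi V W (X ^ j)) := by
  obtain ⟨A, B, hAB⟩ : IsCoprime ((X : ℂ[X]) ^ (j + 1)) ((X - 1 : ℂ[X]) ^ (j + 1)) := by
    apply IsCoprime.pow
    exact ⟨1, -1, by ring⟩
  obtain ⟨a, ha⟩ : ∃ a : ℂ[X], a = A * X ^ (j + 1) := ⟨_, rfl⟩
  refine ⟨fun ε => (X - C ε⁻¹) ^ j * a.comp (C ε * X), ?_, ?_⟩
  · have h := (Phi_cont V W (X ^ (j + 1)) ((X - 1) ^ j * A)).mono_left
      (nhdsWithin_le_nhds (s := {(0 : ℂ)}ᶜ))
    have h2 : Tendsto (fun ε : ℂ => ε) (𝓝[≠] 0) (𝓝 0) := nhdsWithin_le_nhds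
    have h3 := h2.smul h
    rw [zero_smul] at h3
    refine h3.congr' ?_
    filter_upwards [self_mem_nhdsWithin] with ε hε
    have hε' : ε ≠ 0 := hε
    rw [← map_smul]
    congr 1
    rw [smul_eq_C_mul, ha]
    simp only [mul_comp, pow_comp, sub_comp, X_comp, one_comp, C_comp, add_comp, comp_assoc]
    have e1 : (C ε : ℂ[X]) * (X - C ε⁻¹) = C ε * X - 1 := by
      rw [mul_sub, ← C_mul, mul_inv_cancel₀ hε', C_1]
    rw [← e1, mul_pow (C ε) (X - C ε⁻¹)]
    ring
  · have h := (Phi_cont V W (X ^ j) (a.comp (X + 1))).mono_left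
      (nhdsWithin_le_nhds (s := {(0 : ℂ)}ᶜ))
    have h0 : (a.comp (X + 1)).eval 0 = 1 := by
      have := congrArg (Polynomial.eval 1) hAB
      simp only [eval_add, eval_mul, eval_pow, eval_X, eval_one, eval_sub, sub_self] at this
      rw [eval_comp, ha]
      simp only [eval_mul, eval_pow, eval_X, eval_add, eval_one, zero_add]
      rw [zero_pow (by omega), mul_zero, add_zero] at this
      exact this
    rw [h0, one_smul] at h
    refine h.congr' ?_
    filter_upwards [self_mem_nhdsWithin] with ε hε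
    have hε' : ε ≠ 0 := hε
    congr 1
    rw [Polynomial.taylor_apply]
    simp only [mul_comp, pow_comp, sub_comp, X_comp, one_comp, C_comp, add_comp, comp_assoc]
    have e1 : (C ε : ℂ[X]) * (X + C ε⁻¹) = C ε * X + 1 := by
      rw [mul_add, ← C_mul, mul_inv_cancel₀ hε', C_1]
    rw [e1, add_sub_cancel_right]

omit hW hG [CompleteSpace E] in
lemma reach_all (u v : ℂ[X]) : Reach V W (Phi V W u) (Phi V W v) := by
  have h1 : ∀ u : ℂ[X], Reach V W (Phi V W u) 0 := by
    intro u
    induction u using Polynomial.induction_on' with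
    | add p q hp hq =>
      have := hp.add V W hq
      rwa [← map_add, add_zero] at this
    | monomial m c =>
      have := (reach_left V W m).smul V W c
      rwa [← map_smul, smul_zero, smul_X_eq_monomial] at this
  have h2 : ∀ u : ℂ[X], Reach V W 0 (Phi V W u) := by
    intro u
    induction u using Polynomial.induction_on' with
    | add p q hp hq =>
      have := hp.add V W hq
      rwa [← map_add, add_zero] at this
    | monomial m c =>
      have := (reach_right V W m).smul V W c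
      rwa [← map_smul, smul_zero, smul_X_eq_monomial] at this
  have := (h1 u).add V W (h2 v)
  rwa [add_zero, zero_add] at this

/-- every `T z`, `z ≠ 0`, is hypercyclic -/
lemma hyp (z : ℂ) (hz : z ≠ 0) :
    ∃ y : E, Dense (Set.range (fun n : ℕ => (⇑(Tz G z))^[n] y)) := by
  have : TopologicalSpace.SeparableSpace E := separable V
  have : SecondCountableTopology E := UniformSpace.secondCountable_of_separable E
  apply birkhoff _ (Tz G z).continuous
  intro U U' hU hU' hUn hUn'
  obtain ⟨_, hxU, u, rfl⟩ := (Phi_dense V W hW).inter_open_nonempty U hU hUn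
  obtain ⟨_, hxU', v, rfl⟩ := (Phi_dense V W hW).inter_open_nonempty U' hU' hUn'
  obtain ⟨F, h1, h2⟩ := reach_all V W u v
  have h3 : Tendsto (fun n : ℕ => ((((n : ℂ) + 1) * z)⁻¹)) atTop (𝓝[≠] 0) := by
    rw [tendsto_nhdsWithin_iff]
    constructor
    · have h4 : Tendsto (fun n : ℕ => (((n : ℂ) + 1))⁻¹) atTop (𝓝 0) := by
        have := tendsto_one_div_add_atTop_nhds_zero_nat (𝕜 := ℂ)
        simpa using this
      have h5 := h4.mul_const z⁻¹
      rw [zero_mul] at h5
      refine h5.congr fun n => ?_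
      rw [mul_inv]
    · filter_upwards with n
      have : ((n : ℂ) + 1) ≠ 0 := Nat.cast_add_one_ne_zero n
      simp [this, hz]
  have h4 := (h1.comp h3).eventually (hU.mem_nhds hxU)
  have h5 := (h2.comp h3).eventually (hU'.mem_nhds hxU')
  obtain ⟨n, hn1, hn2⟩ := (h4.and h5).exists
  refine ⟨n + 1, Phi V W (F ((((n : ℂ) + 1) * z)⁻¹)), hn1, ?_⟩
  rw [Tz_iter, T_Phi V W G hW hG]
  simp only [Function.comp, inv_inv] at hn2
  push_cast
  exact hn2

end

end Pool.Agent.V11113.HG
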