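import Pool.Agent.V11113.HG.Group
import Pool.Agent.V11113.HG.Dir

set_option autoImplicit false

namespace Pool.Agent.V11113.HG

open Filter Topology Polynomial

section

variable {E : Type} [NormedAddCommGroup E] [NormedSpace ℂ E] [CompleteSpace E]
  (V : SeqSpace ℂ E) (G : E →L[ℂ] E)
  (hG : ∀ x n, V.co (G x) n = ((WW (n + 1) / WW n : ℝ) : ℂ) * V.co x (n + 1))

/-- Taylor coefficients of the first coordinate -/
noncomputable def cc (y : E) (k : ℕ) : ℂ := (k.factorial : ℂ)⁻¹ * (WW k : ℂ) * V.co y k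

omit [CompleteSpace E] in
lemma cc_le (y : E) (k m : ℕ) (h : m ≤ k) : ‖cc V y k‖ ≤ ‖y‖ * WW m := by
  unfold cc
  rw [norm_mul, norm_mul, norm_inv, Complex.norm_natCast, Complex.norm_real, Real.norm_eq_abs,
    abs_of_pos (WW_pos k)]
  have h1 : (1 : ℝ) ≤ k.factorial := by exact_mod_cast Nat.factorial_pos k
  have h2 : ((k.factorial : ℝ))⁻¹ ≤ 1 := inv_le_one_of_one_le₀ h1
  have h3 : WW k ≤ WW m := WW_anti h
  have h4 := V.eval y k
  have h5 := WW_pos k
  have h6 := WW_pos m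
  calc ((k.factorial : ℝ))⁻¹ * WW k * ‖V.co y k‖ ≤ 1 * WW m * ‖y‖ := by
        gcongr
    _ = ‖y‖ * WW m := by ring

include hG in
lemma f_sum (y : E) (z : ℂ) : HasSum (fun k : ℕ => cc V y k * z ^ k)
    ((WW 0 : ℂ) * V.co (Tz G z y) 0) := by
  have h := (co_T V WW G WW_pos hG z y 0).mul_left (WW 0 : ℂ)
  convert! h using 1
  funext k
  have h0 : (WW 0 : ℂ) ≠ 0 := by exact_mod_cast (WW_pos 0).ne'
  unfold cc
  rw [zero_add]
  push_cast
  field_simp

/-- the truncated polynomial -/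
noncomputable def QQ (y : E) (k0 K : ℕ) : ℂ[X] :=
  ∑ l ∈ Finset.range (K + 1), monomial l (cc V y (k0 + l))

omit [CompleteSpace E] in
lemma QQ_eval (y : E) (k0 K : ℕ) (z : ℂ) :
    (QQ V y k0 K).eval z = ∑ l ∈ Finset.range (K + 1), cc V y (k0 + l) * z ^ l := by
  unfold QQ
  rw [eval_finsetSum]
  simp

omit [CompleteSpace E] in
lemma QQ_deg (y : E) (k0 K : ℕ) : (QQ V y k0 K).natDegree ≤ K := by
  unfold QQ
  apply Polynomial.natDegree_sum_le_of_forall_le
  intro l hl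
  exact (natDegree_monomial_le _).trans (by simpa [Nat.lt_succ_iff] using hl)

omit [CompleteSpace E] in
lemma QQ_zero (y : E) (k0 K : ℕ) : (QQ V y k0 K).eval 0 = cc V y k0 := by
  rw [QQ_eval, Finset.sum_range_succ']
  simp

include hG in
/-- approximation of `f` by polynomials -/
lemma approx (y : E) (k0 : ℕ) (hk0 : 1 ≤ k0) (hz0 : ∀ k, 1 ≤ k → k < k0 → V.co y k = 0)
    (K : ℕ) (z : ℂ) (hz1 : 1 ≤ ‖z‖) (hzR : ‖z‖ ≤ RR K) :
    ‖(QQ V y k0 K).eval z‖ ≤
      (‖(WW 0 : ℂ) * V.co (Tz G z y) 0‖ + ‖cc V y 0‖ + ‖y‖) / ‖z‖ := by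
  have hzpos : 0 < ‖z‖ := by linarith
  have hf := f_sum V G hG y z
  -- the tail
  have hterm : ∀ j : ℕ, ‖cc V y (k0 + (K + 1 + j)) * z ^ (K + 1 + j)‖ ≤
      ‖y‖ / ‖z‖ * ((1 / 2) * (1 / 2) ^ j) := by
    intro j
    rw [norm_mul, norm_pow]
    have h1 := cc_le V y (k0 + (K + 1 + j)) (K + 1 + j) (by omega)
    have h2 := tailW K (K + 1 + j) (by omega) ‖z‖ (norm_nonneg z) hzR
    have h3 : ((1 : ℝ) / 2) ^ (K + 1 + j) ≤ (1 / 2) * (1 / 2) ^ j := by
      calc ((1 : ℝ) / 2) ^ (K + 1 + j) ≤ (1 / 2) ^ (1 + j) :=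
            pow_le_pow_of_le_one (by norm_num) (by norm_num) (by omega)
        _ = _ := by rw [pow_add, pow_one]
    rw [div_mul_eq_mul_div, le_div_iff₀ hzpos]
    calc ‖cc V y (k0 + (K + 1 + j))‖ * ‖z‖ ^ (K + 1 + j) * ‖z‖
        ≤ (‖y‖ * WW (K + 1 + j)) * ‖z‖ ^ (K + 1 + j) * ‖z‖ := by gcongr
      _ = ‖y‖ * (‖z‖ ^ (K + 1 + j + 1) * WW (K + 1 + j)) := by ring
      _ ≤ ‖y‖ * (1 / 2) ^ (K + 1 + j) := by gcongr
      _ ≤ ‖y‖ * ((1 / 2) * (1 / 2) ^ j) := by gcongr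
  have hgeo : HasSum (fun j : ℕ => ‖y‖ / ‖z‖ * ((1 / 2 : ℝ) * (1 / 2) ^ j)) (‖y‖ / ‖z‖) := by
    have h1 := (hasSum_geometric_two.mul_left (1 / 2 : ℝ)).mul_left (‖y‖ / ‖z‖)
    convert! h1 using 1
    ring
  have htail : ‖∑' j : ℕ, cc V y (k0 + (K + 1 + j)) * z ^ (K + 1 + j)‖ ≤ ‖y‖ / ‖z‖ :=
    tsum_of_norm_bounded hgeo hterm
  -- decomposition
  have hdec : (WW 0 : ℂ) * V.co (Tz G z y) 0 = cc V y 0 + z ^ k0 * ((QQ V y k0 K).eval z +
      ∑' j : ℕ, cc V y (k0 + (K + 1 + j)) * z ^ (K + 1 + j)) := by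
    have h1 := hf.summable.sum_add_tsum_nat_add (k0 + (K + 1))
    rw [hf.tsum_eq] at h1
    have e1 : ∑ i ∈ Finset.range k0, cc V y i * z ^ i = cc V y 0 := by
      obtain ⟨m, rfl⟩ : ∃ m, k0 = m + 1 := ⟨k0 - 1, by omega⟩
      rw [Finset.sum_range_succ', Finset.sum_eq_zero]
      · simp
      · intro k hk
        have hk' : k < m := Finset.mem_range.1 hk
        unfold cc
        rw [hz0 (k + 1) (by omega) (by omega)]
        simp
    have e2 : ∑ i ∈ Finset.range (K + 1), cc V y (k0 + i) * z ^ (k0 + i) =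
        z ^ k0 * (QQ V y k0 K).eval z := by
      rw [QQ_eval, Finset.mul_sum]
      refine Finset.sum_congr rfl fun l _ => ?_
      rw [pow_add]; ring
    have e3 : ∑' i : ℕ, cc V y (i + (k0 + (K + 1))) * z ^ (i + (k0 + (K + 1))) =
        z ^ k0 * ∑' j : ℕ, cc V y (k0 + (K + 1 + j)) * z ^ (K + 1 + j) := by
      rw [← tsum_mul_left]
      congr 1
      funext j
      have : j + (k0 + (K + 1)) = k0 + (K + 1 + j) := by ring
      rw [this, pow_add]
      ring
    rw [Finset.sum_range_add, e1, e2, e3] at h1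
    rw [← h1]
    ring
  have h5 : ‖z‖ ^ k0 * ‖(QQ V y k0 K).eval z + ∑' j : ℕ, cc V y (k0 + (K + 1 + j)) *
      z ^ (K + 1 + j)‖ ≤ ‖(WW 0 : ℂ) * V.co (Tz G z y) 0‖ + ‖cc V y 0‖ := by
    rw [← norm_pow, ← norm_mul]
    have : z ^ k0 * ((QQ V y k0 K).eval z + ∑' j : ℕ, cc V y (k0 + (K + 1 + j)) *
      z ^ (K + 1 + j)) = (WW 0 : ℂ) * V.co (Tz G z y) 0 - cc V y 0 := by
      rw [hdec]; ring
    rw [this]
    exact norm_sub_le _ _
  have h6 : ‖z‖ * ‖(QQ V y k0 K).eval z + ∑' j : ℕ, cc V y (k0 + (K + 1 + j)) *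
      z ^ (K + 1 + j)‖ ≤ ‖(WW 0 : ℂ) * V.co (Tz G z y) 0‖ + ‖cc V y 0‖ := by
    refine le_trans ?_ h5
    apply mul_le_mul_of_nonneg_right _ (norm_nonneg _)
    calc ‖z‖ = ‖z‖ ^ 1 := (pow_one _).symm
      _ ≤ ‖z‖ ^ k0 := pow_le_pow_right₀ hz1 hk0
  have h7 : ‖(QQ V y k0 K).eval z‖ ≤ ‖(QQ V y k0 K).eval z + ∑' j : ℕ, cc V y (k0 + (K + 1 + j)) *
      z ^ (K + 1 + j)‖ + ‖y‖ / ‖z‖ := by
    have : (QQ V y k0 K).eval z = ((QQ V y k0 K).eval z + ∑' j : ℕ, cc V y (k0 + (K + 1 + j)) *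
      z ^ (K + 1 + j)) - ∑' j : ℕ, cc V y (k0 + (K + 1 + j)) * z ^ (K + 1 + j) := by ring
    calc ‖(QQ V y k0 K).eval z‖ = ‖((QQ V y k0 K).eval z + ∑' j : ℕ, cc V y (k0 + (K + 1 + j)) *
      z ^ (K + 1 + j)) - ∑' j : ℕ, cc V y (k0 + (K + 1 + j)) * z ^ (K + 1 + j)‖ := by rw [← this]
      _ ≤ _ := (norm_sub_le _ _).trans (by linarith)
  refine h7.trans ?_
  rw [add_div _ ‖y‖]
  gcongr
  rw [le_div_iff₀ hzpos]
  linarith

include hG in
/-- no common hypercyclic vector -/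
lemma not_common (y : E) : ∃ z : ℂ, z ≠ 0 ∧
    ¬ Dense (Set.range (fun n : ℕ => (⇑(Tz G z))^[n] y)) := by
  by_cases hex : ∃ k, 1 ≤ k ∧ V.co y k ≠ 0
  · -- main case
    classical
    obtain ⟨hk1, hk2⟩ := Nat.find_spec hex
    set k0 := Nat.find hex with hk0
    have hz0 : ∀ k, 1 ≤ k → k < k0 → V.co y k = 0 := by
      intro k h1 h2
      by_contra h3
      exact Nat.find_min hex h2 ⟨h1, h3⟩
    have hd0 : cc V y k0 ≠ 0 := by
      unfold cc
      have h1 : (k0.factorial : ℂ) ≠ 0 := by exact_mod_cast Nat.factorial_ne_zero k0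
      have h2 : (WW k0 : ℂ) ≠ 0 := by exact_mod_cast (WW_pos k0).ne'
      exact mul_ne_zero (mul_ne_zero (inv_ne_zero h1) h2) hk2
    obtain ⟨s, hs, hdir⟩ := exists_dir (fun K => QQ V y k0 K) (fun K => QQ_deg V y k0 K)
    set C : ℝ := 1 + ‖cc V y 0‖ + ‖y‖ with hC
    have hCpos : 0 < C := by positivity
    obtain ⟨K1, hK1⟩ : ∃ K1 : ℕ, C / ‖cc V y k0‖ < 2 ^ K1 := by
      obtain ⟨K1, h⟩ := pow_unbounded_of_one_lt (C / ‖cc V y k0‖) (one_lt_two : (1 : ℝ) < 2)
      exact ⟨K1, h⟩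
    have hdpos : 0 < ‖cc V y k0‖ := norm_pos_iff.2 hd0
    -- claim
    have claim : ∀ n : ℕ, RR K1 < n →
        1 ≤ ‖(WW 0 : ℂ) * V.co (Tz G ((n : ℂ) * (1 + s * Complex.I)) y) 0‖ := by
      intro n hn
      by_contra hlt
      rw [not_le] at hlt
      have hn1 : (1 : ℝ) < n := (one_le_RR K1).trans_lt hn
      have hnpos : 0 < n := by
        have : (0 : ℝ) < n := by linarith
        exact_mod_cast this
      set z : ℂ := (n : ℂ) * (1 + s * Complex.I) with hz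
      have hzn : (n : ℝ) ≤ ‖z‖ := by
        have h1 := Complex.abs_re_le_norm z
        have h2 : z.re = n := by simp [hz]
        rw [h2, abs_of_nonneg (by positivity)] at h1
        exact h1
      -- choose K
      have hexK : ∃ K, ‖z‖ ≤ RR K := (RR_tendsto.eventually (eventually_ge_atTop ‖z‖)).exists
      set K := Nat.find hexK with hK
      have hKle : ‖z‖ ≤ RR K := Nat.find_spec hexK
      have hK1K : K1 < K := by
        by_contra hle
        rw [not_lt] at hle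
        have := RR_mono hle
        linarith
      obtain ⟨m, hm⟩ : ∃ m, K = m + 1 := ⟨K - 1, by omega⟩
      have hmlt : RR m < ‖z‖ := by
        by_contra hle
        rw [not_lt] at hle
        exact Nat.find_min hexK (m := m) (by omega) hle
      have hap := approx V G hG y k0 hk1 hz0 K z (by linarith) hKle
      have hroots : ∀ ζ ∈ (QQ V y k0 K).roots, tau K * ‖z‖ ≤ ‖z - ζ‖ := by
        intro ζ hζ
        by_contra hlt2
        rw [not_le] at hlt2
        have h1 := dir_geom s hs n hnpos (tau K) (tau_pos K) (tau_le K) ζ hlt2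
        have h2 := hdir K ζ hζ
        linarith
      have hlow := root_low (QQ V y k0 K) z (tau K) (tau_pos K) (by linarith [tau_le K]) K
        (QQ_deg V y k0 K) hroots
      rw [QQ_zero] at hlow
      have h1 : ‖cc V y k0‖ * (tau K / 2) ^ K < C / RR m := by
        refine lt_of_le_of_lt (hlow.trans hap) ?_
        have hRm : 0 < RR m := lt_of_lt_of_le one_pos (one_le_RR m)
        rw [div_lt_div_iff₀ (by linarith) hRm]
        have h2 : ‖(WW 0 : ℂ) * V.co (Tz G z y) 0‖ + ‖cc V y 0‖ + ‖y‖ < C := by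
          rw [hC]; linarith
        have h3 : 0 ≤ ‖(WW 0 : ℂ) * V.co (Tz G z y) 0‖ + ‖cc V y 0‖ + ‖y‖ := by positivity
        nlinarith
      have h2 := RR_tau m
      rw [← hm] at h2
      have hRm : 0 < RR m := lt_of_lt_of_le one_pos (one_le_RR m)
      rw [lt_div_iff₀ hRm] at h1
      have h3 : (2 : ℝ) ^ K1 ≤ 2 ^ m := pow_le_pow_right₀ (by norm_num) (by omega)
      rw [div_lt_iff₀ hdpos] at hK1
      have h4 : C < 2 ^ m * ‖cc V y k0‖ := by nlinarith
      have h5 : 2 ^ m * ‖cc V y k0‖ ≤ RR m * (tau K / 2) ^ K * ‖cc V y k0‖ := by gcongr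
      nlinarith
    refine ⟨1 + s * Complex.I, ?_, ?_⟩
    · intro h
      have := congrArg Complex.re h
      simp at this
    · intro hdense
      obtain ⟨N, hN⟩ := exists_nat_gt (RR K1)
      have hnt : Nontrivial E := by
        refine ⟨V.e 0, 0, fun h => ?_⟩
        have := congrFun (V.co_e 0) 0
        rw [h] at this
        simp at this
      have : ∀ x : E, (𝓝[≠] x).NeBot := fun x => Module.punctured_nhds_neBot ℂ E x
      have hfin : ((fun n : ℕ => (⇑(Tz G (1 + s * Complex.I)))^[n] y) '' (Set.Iio N)).Finite :=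
        (Set.finite_Iio N).image _
      have hd2 := hdense.sdiff_finite hfin
      have hopen : IsOpen {x : E | ‖(WW 0 : ℂ) * V.co x 0‖ < 1} := by
        have hc : Continuous (fun x : E => ‖(WW 0 : ℂ) * coL V 0 x‖) := by fun_prop
        exact isOpen_lt hc continuous_const
      obtain ⟨x, hx1, ⟨⟨n, hn⟩, hx3⟩⟩ := hd2.inter_open_nonempty _ hopen ⟨0, by simp⟩
      have hnN : N ≤ n := by
        by_contra hlt
        exact hx3 ⟨n, by simpa using hlt, hn⟩
      have h1 := claim n (lt_of_lt_of_le hN (by exact_mod_cast hnN))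
      have h2 : x = Tz G ((n : ℂ) * (1 + s * Complex.I)) y := by
        rw [← hn]; exact Tz_iter G _ n y
      rw [← h2] at h1
      exact absurd hx1 (not_lt.2 h1)
  · push Not at hex
    refine ⟨1, one_ne_zero, fun hdense => ?_⟩
    have hconst : ∀ n : ℕ, V.co ((⇑(Tz G 1))^[n] y) 0 = V.co y 0 := by
      intro n
      rw [Tz_iter]
      have h1 := f_sum V G hG y ((n : ℂ) * 1)
      have h2 : HasSum (fun k : ℕ => cc V y k * ((n : ℂ) * 1) ^ k) (cc V y 0) := by
        have := hasSum_single (f := fun k : ℕ => cc V y k * ((n : ℂ) * 1) ^ k) 0 (by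
          intro k hk
          unfold cc
          rw [hex k (by omega)]
          simp)
        simpa using this
      have h3 := h1.unique h2
      have h0 : (WW 0 : ℂ) ≠ 0 := by exact_mod_cast (WW_pos 0).ne'
      unfold cc at h3
      simp only [Nat.factorial_zero, Nat.cast_one, inv_one, one_mul] at h3
      exact mul_left_cancel₀ h0 h3
    have hopen : IsOpen {x : E | coL V 0 x ≠ V.co y 0} :=
      isOpen_ne_fun (coL V 0).continuous continuous_const
    obtain ⟨x, hx1, ⟨n, hn⟩⟩ := hdense.inter_open_nonempty _ hopen ⟨(V.co y 0 + 1) • V.e 0, by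
      simp only [Set.mem_ofPred_eq, map_smul, coL_apply, V.co_e]
      simp⟩
    apply hx1
    rw [coL_apply, ← hn]
    exact hconst n

end

end Pool.Agent.V11113.HG
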