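import Mathlib

set_option autoImplicit false

namespace Pool.Agent.V11113.HG

open Filter Topology

/-- Abstract sequence spaces. -/
structure SeqSpace (𝕜 X : Type) [RCLike 𝕜] [NormedAddCommGroup X] [NormedSpace 𝕜 X] where
  co : X →ₗ[𝕜] (ℕ → 𝕜)
  inj : Function.Injective co
  eval : ∀ x n, ‖co x n‖ ≤ ‖x‖
  dom : ∀ (x : X) (j : ℕ) (C : ℝ) (f : ℕ → 𝕜), 0 ≤ C → (∀ n, ‖f n‖ ≤ C * ‖co x (n + j)‖) →
    ∃ y : X, co y = f ∧ ‖y‖ ≤ C * ‖x‖
  e : ℕ → X
  co_e : ∀ n, co (e n) = Pi.single n 1
  norm_e : ∀ n, ‖e n‖ ≤ 1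
  tail : ∀ x, x ∈ closure (Submodule.span 𝕜 (Set.range e) : Set X)

/-- `ℓᵖ` as an abstract sequence space -/
noncomputable def lpSpace (𝕜 : Type) [RCLike 𝕜] (p : ENNReal) [Fact (1 ≤ p)] (hp : p ≠ ⊤) :
    SeqSpace 𝕜 (lp (fun _ : ℕ => 𝕜) p) := by
  have hp0 : p ≠ 0 := (lt_of_lt_of_le one_pos (Fact.out : 1 ≤ p)).ne'
  have hpr : 0 < p.toReal := ENNReal.toReal_pos hp0 hp
  exact
  { co :=
      { toFun := fun x => x
        map_add' := fun x y => lp.coeFn_add x y
        map_smul' := fun c x => lp.coeFn_smul c x }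
    inj := fun x y h => lp.ext h
    eval := fun x n => lp.norm_apply_le_norm hp0 x n
    dom := fun x j C f hC hf => by
      have hsh : Memℓp (fun n => x (n + j)) p := by
        apply memℓp_gen
        exact (summable_nat_add_iff j).2 ((lp.memℓp x).summable hpr)
      have hmem : Memℓp f p := by
        apply (hsh.norm.const_smul C).mono
        intro n
        exact hf n
      refine ⟨⟨f, hmem⟩, rfl, ?_⟩
      apply lp.norm_le_of_forall_sum_le hpr (by positivity)
      intro s
      calc ∑ i ∈ s, ‖f i‖ ^ p.toReal ≤ ∑ i ∈ s, (C * ‖x (i + j)‖) ^ p.toReal := by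
            gcongr with i _
            exact hf i
        _ = C ^ p.toReal * ∑ i ∈ s, ‖x (i + j)‖ ^ p.toReal := by
            rw [Finset.mul_sum]
            refine Finset.sum_congr rfl fun i _ => ?_
            rw [Real.mul_rpow hC (norm_nonneg _)]
        _ = C ^ p.toReal * ∑ i ∈ s.map (addRightEmbedding j), ‖x i‖ ^ p.toReal := by
            rw [Finset.sum_map]
            rfl
        _ ≤ C ^ p.toReal * ‖x‖ ^ p.toReal := by
            gcongr
            exact lp.sum_rpow_le_norm_rpow hpr x _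
        _ = (C * ‖x‖) ^ p.toReal := (Real.mul_rpow hC (norm_nonneg _)).symm
    e := fun n => lp.single p n (1 : 𝕜)
    co_e := fun n => by
      funext m
      exact lp.coeFn_single (E := fun _ : ℕ => 𝕜) p n (1 : 𝕜) ▸ rfl
    norm_e := fun n => by
      rw [lp.norm_single (lt_of_lt_of_le one_pos (Fact.out : 1 ≤ p)), norm_one]
    tail := fun x => by
      have h := lp.hasSum_single hp x
      apply mem_closure_of_tendsto h
      filter_upwards with s
      apply Submodule.sum_mem
      intro i _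
      have : lp.single p i (x i) = (x i) • (lp.single p i (1 : 𝕜) : lp (fun _ : ℕ => 𝕜) p) := by
        rw [← lp.single_smul, smul_eq_mul, mul_one]
      rw [this]
      exact Submodule.smul_mem _ _ (Submodule.subset_span ⟨i, rfl⟩) }

section

variable {𝕜 : Type} [RCLike 𝕜] {X : Type} [NormedAddCommGroup X] [NormedSpace 𝕜 X]
  (V : SeqSpace 𝕜 X)

include V in
lemma separable : TopologicalSpace.SeparableSpace X := by
  rw [← TopologicalSpace.isSeparable_univ_iff]
  have h1 : TopologicalSpace.IsSeparable (Submodule.span 𝕜 (Set.range V.e) : Set X) :=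
    (Set.countable_range V.e).isSeparable.span
  apply h1.closure.mono
  intro x _
  exact V.tail x

/-- coordinate functionals -/
noncomputable def coL (n : ℕ) : X →L[𝕜] 𝕜 :=
  LinearMap.mkContinuous ((LinearMap.proj n).comp V.co) 1 (fun x => by
    rw [one_mul]
    exact V.eval x n)

lemma coL_apply (n : ℕ) (x : X) : coL V n x = V.co x n := rfl

/-- weighted backward shifts with bounded weights -/
lemma exists_shift (w : ℕ → 𝕜) (C : ℝ) (hC : 0 ≤ C) (hw : ∀ n, ‖w n‖ ≤ C) :
    ∃ T : X →L[𝕜] X, ∀ x n, V.co (T x) n = w n * V.co x (n + 1) := by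
  have hex : ∀ x : X, ∃ y : X, V.co y = (fun n => w n * V.co x (n + 1)) ∧ ‖y‖ ≤ C * ‖x‖ := by
    intro x
    apply V.dom x 1 C _ hC
    intro n
    rw [norm_mul]
    gcongr
    exact hw n
  choose F hF1 hF2 using hex
  refine ⟨LinearMap.mkContinuous
    { toFun := F
      map_add' := fun x y => by
        apply V.inj
        rw [map_add, hF1, hF1, hF1, map_add]
        funext n
        simp [mul_add]
      map_smul' := fun c x => by
        apply V.inj
        rw [RingHom.id_apply, map_smul, hF1, hF1, map_smul]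
        funext n
        simp
        ring } C hF2, fun x n => ?_⟩
  exact congrFun (hF1 x) n

end

/-- Birkhoff's transitivity theorem. -/
lemma birkhoff {X : Type} [TopologicalSpace X] [BaireSpace X] [SecondCountableTopology X]
    [Nonempty X] (T : X → X) (hT : Continuous T)
    (h : ∀ U W : Set X, IsOpen U → IsOpen W → U.Nonempty → W.Nonempty →
      ∃ n : ℕ, ∃ x ∈ U, T^[n] x ∈ W) :
    ∃ x : X, Dense (Set.range (fun n : ℕ => T^[n] x)) := by
  let B := TopologicalSpace.countableBasis X
  have hB : TopologicalSpace.IsTopologicalBasis B := TopologicalSpace.isBasis_countableBasis X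
  have hcount : B.Countable := TopologicalSpace.countable_countableBasis X
  have hBne : ∀ b ∈ B, b.Nonempty := fun b hb => by
    by_contra hne
    rw [Set.not_nonempty_iff_eq_empty] at hne
    rw [hne] at hb
    exact TopologicalSpace.empty_notMem_countableBasis X hb
  have hd : Dense (⋂ b ∈ B, ⋃ n : ℕ, (T^[n]) ⁻¹' b) := by
    apply dense_biInter_of_isOpen
    · intro b hb
      exact isOpen_iUnion fun n => (hB.isOpen hb).preimage (hT.iterate n)
    · exact hcount
    · intro b hb
      rw [dense_iff_inter_open]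
      intro U hU hUn
      obtain ⟨n, x, hx, hx2⟩ := h U b hU (hB.isOpen hb) hUn (hBne b hb)
      exact ⟨x, hx, Set.mem_iUnion.2 ⟨n, hx2⟩⟩
  obtain ⟨x, hx⟩ := hd.nonempty
  refine ⟨x, ?_⟩
  rw [hB.dense_iff]
  intro b hb _
  have := Set.mem_iInter₂.1 hx b hb
  obtain ⟨n, hn⟩ := Set.mem_iUnion.1 this
  exact ⟨T^[n] x, hn, n, rfl⟩

end Pool.Agent.V11113.HG
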